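import Pool.Agent.Helper94.YF.St

/-! # Project YF, module ORB: points of the projective line -/

set_option autoImplicit false
set_option linter.unusedSimpArgs false

namespace Pool.Agent.Helper40.YF

open Pool.Agent.Helper94.YF

private lemma m00 {L : ℕ} (g h : SL L) : (g * h) 0 0 = g 0 0 * h 0 0 + g 0 1 * h 1 0 := by
  rw [Matrix.SpecialLinearGroup.coe_mul, Matrix.mul_apply, Fin.sum_univ_two]

private lemma m10 {L : ℕ} (g h : SL L) : (g * h) 1 0 = g 1 0 * h 0 0 + g 1 1 * h 1 0 := by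
  rw [Matrix.SpecialLinearGroup.coe_mul, Matrix.mul_apply, Fin.sum_univ_two]

private lemma m01 {L : ℕ} (g h : SL L) : (g * h) 0 1 = g 0 0 * h 0 1 + g 0 1 * h 1 1 := by
  rw [Matrix.SpecialLinearGroup.coe_mul, Matrix.mul_apply, Fin.sum_univ_two]

private lemma m11 {L : ℕ} (g h : SL L) : (g * h) 1 1 = g 1 0 * h 0 1 + g 1 1 * h 1 1 := by
  rw [Matrix.SpecialLinearGroup.coe_mul, Matrix.mul_apply, Fin.sum_univ_two]

private lemma U00 {L : ℕ} (z : ZMod L) : (U z) 0 0 = 1 := rfl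
private lemma U01 {L : ℕ} (z : ZMod L) : (U z) 0 1 = z := rfl
private lemma U10 {L : ℕ} (z : ZMod L) : (U z) 1 0 = 0 := rfl
private lemma U11 {L : ℕ} (z : ZMod L) : (U z) 1 1 = 1 := rfl
private lemma L00 {L : ℕ} (z : ZMod L) : (Lo z) 0 0 = 1 := rfl
private lemma L01 {L : ℕ} (z : ZMod L) : (Lo z) 0 1 = 0 := rfl
private lemma L10 {L : ℕ} (z : ZMod L) : (Lo z) 1 0 = z := rfl
private lemma L11 {L : ℕ} (z : ZMod L) : (Lo z) 1 1 = 1 := rfl

private lemma s00 {L : ℕ} (b : ZMod L) (hb : b * b = b) : (s2 b) 0 0 = 1 - b := by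
  unfold s2
  rw [m00, m00, m01, U00, U01, U10, L00, L10, L01, L11]
  linear_combination (-1) * hb

private lemma s10 {L : ℕ} (b : ZMod L) : (s2 b) 1 0 = b := by
  unfold s2
  rw [m10, m10, m11, U00, U11, U10, L00, L10, L01, L11]
  ring

/-- module ORB of project YF -/
theorem hORB : Pool.Agent.Helper94.YF.StORB := by
  intro hFUS hDUA I _ _ Z P b j hb hj c w
  obtain ⟨_, _, _, _, _, _, _, _, _, _, h6⟩ := hFUS hDUA I Z
  have hbj : ∀ x, b * j x = j x := by
    intro x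
    have h := hj.mul 1 x
    rw [one_mul, hj.one] at h
    exact h.symm
  have hwj : j (w : ZMod P) * j ((w⁻¹ : (ZMod P)ˣ) : ZMod P) = b := by
    rw [← hj.mul, Units.mul_inv, hj.one]
  have hw'j : j ((w⁻¹ : (ZMod P)ˣ) : ZMod P) * j (w : ZMod P) = b := by
    rw [mul_comm, hwj]
  have e1 := hbj (w : ZMod P)
  have e2 := hbj ((w⁻¹ : (ZMod P)ˣ) : ZMod P)
  obtain ⟨C, hC⟩ : ∃ C : (ZMod Z.L)ˣ, (C : ZMod Z.L) = (1 - b) + j (w : ZMod P) := by
    refine ⟨⟨(1 - b) + j (w : ZMod P), (1 - b) + j ((w⁻¹ : (ZMod P)ˣ) : ZMod P), ?_, ?_⟩, rfl⟩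
    · linear_combination hb + hwj - e1 - e2
    · linear_combination hb + hwj - e1 - e2
  have hcw : ∀ x : ZMod P, j (w : ZMod P) * j (x * ((w⁻¹ : (ZMod P)ˣ) : ZMod P)) = j x := by
    intro x
    rw [← hj.mul]
    congr 1
    rw [mul_comm x, ← mul_assoc, Units.mul_inv, one_mul]
  have hc' := hbj c
  refine ⟨fun hw i => ?_, fun hw i => ?_, fun hw i => ?_⟩
  · have hk := hbj (c * ((w⁻¹ : (ZMod P)ˣ) : ZMod P))
    have hm := hcw c
    have hjw : j (w : ZMod P) = b + j c := by rw [hw, hj.add, hj.one]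
    refine h6 _ _ C ?_ ?_ i
    · simp only [mul_assoc, m00, m10, U00, U01, U10, U11, L00, L01, L10, L11, s00 b hb, s10, hC]
      linear_combination (-1) * hb + j (c * ((w⁻¹ : (ZMod P)ˣ) : ZMod P)) * hb + e1 - b * hm
    · simp only [mul_assoc, m00, m10, U00, U01, U10, U11, L00, L01, L10, L11, s00 b hb, s10, hC]
      linear_combination j c * hb + hc' - hjw - e1
  · have hjw : j (w : ZMod P) = j c := by rw [hw]
    have hd := hbj (1 + ((w⁻¹ : (ZMod P)ˣ) : ZMod P))
    have hm : j (w : ZMod P) * j (1 + ((w⁻¹ : (ZMod P)ˣ) : ZMod P)) = j (w : ZMod P) + b := by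
      rw [hj.add, mul_add, hwj, hj.one]
      linear_combination e1
    refine h6 _ _ C ?_ ?_ i
    · simp only [mul_assoc, m00, m10, U00, U01, U10, U11, L00, L01, L10, L11, s00 b hb, s10, hC]
      linear_combination hc' - hjw
    · simp only [mul_assoc, m00, m10, U00, U01, U10, U11, L00, L01, L10, L11, s00 b hb, s10, hC]
      linear_combination (-1) * hb + j c * hb + hc' - hjw + hd - hm
  · have hk := hbj (c * ((w⁻¹ : (ZMod P)ˣ) : ZMod P))
    have hm := hcw c
    have hjw : j (w : ZMod P) = b + j c := by rw [hw, hj.add, hj.one]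
    refine h6 _ _ C ?_ ?_ i
    · simp only [m00, m10, U00, U01, U10, U11, L00, L01, L10, L11, hC]
      linear_combination hc' - hjw
    · simp only [m00, m10, U00, U01, U10, U11, L00, L01, L10, L11, hC]
      linear_combination hk - hm

end Pool.Agent.Helper40.YF
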